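import Pool.Agent.Lib.MP_524519_ag.DU5.AB.Iface

/-! # DU5/AB, module AUB: the bound for `(f) + (M J)^n I₀` -/

set_option autoImplicit false
set_option linter.unusedSectionVars false

namespace Pool.Agent.DU5.AB.H20

open Pool.Agent.DU5 Pool.Agent.DU5.AB

theorem choose_step (s : ℕ) : (s + 2).choose 2 = (s + 1).choose 2 + (s + 1) := by
  rw [Nat.choose_succ_succ' (s + 1) 1, Nat.choose_one_right, Nat.add_comm]

theorem two_choose (n : ℕ) : n * (n + 1) = 2 * (n + 1).choose 2 := by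
  induction n with
  | zero => simp
  | succ n ih => rw [choose_step]; linarith [ih, Nat.mul_add 2 ((n + 1).choose 2) (n + 1)]

theorem aub (hL : LCOLStatement) (hP : PWRStatement) (hW : LPOWStatement) : AUBStatement := by
  intro k R _ _ _ f a a' b b₁ b₂ M J I₀ n hJ ha ha' hb hb₁ hb₂
  set A := len k (Ideal.span {f, a, a'}) with hA
  set B := len k (Ideal.span {f, a, b}) with hB
  -- the steps
  have step : ∀ s : ℕ, len k (Ideal.span {f} ⊔ M ^ (s + 1) * (J ^ n * I₀)) ≤
      ((s + 1 : ℕ) : ℕ∞) * A + ((n + 1 : ℕ) : ℕ∞) * B +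
        len k (Ideal.span {f} ⊔ M ^ s * (J ^ n * I₀)) := by
    intro s
    have h1 := hL k R (Ideal.span {f} ⊔ M ^ (s + 1) * (J ^ n * I₀))
      (Ideal.span {f} ⊔ M ^ s * (J ^ n * I₀)) a (by
        intro q hq
        obtain ⟨u, hu, v, hv, rfl⟩ := Submodule.mem_sup.1 hq
        rw [mul_add]
        refine add_mem (Ideal.mul_mem_left _ _ (Ideal.mem_sup_left hu)) ?_
        refine Ideal.mem_sup_right ?_
        rw [pow_succ', mul_assoc]
        exact Ideal.mul_mem_mul ha hv)
    have h2 : Ideal.span {f, a, a' ^ (s + 1) * b ^ (n + 1)} ≤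
        Ideal.span {f} ⊔ M ^ (s + 1) * (J ^ n * I₀) ⊔ Ideal.span {a} := by
      rw [Ideal.span_le]
      intro x hx
      simp only [Set.mem_insert_iff, Set.mem_singleton_iff] at hx
      rcases hx with rfl | rfl | rfl
      · exact Ideal.mem_sup_left (Ideal.mem_sup_left (Ideal.mem_span_singleton_self _))
      · exact Ideal.mem_sup_right (Ideal.mem_span_singleton_self _)
      · refine Ideal.mem_sup_left (Ideal.mem_sup_right ?_)
        refine Ideal.mul_mem_mul (Ideal.pow_mem_pow ha' _) ?_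
        rw [pow_succ]
        exact Ideal.mul_mem_mul (Ideal.pow_mem_pow hb _) (hJ hb)
    have h3 := hW k R f a a' b (s + 1) (n + 1)
    refine h1.trans ?_
    gcongr
    exact (len_mono h2).trans h3
  -- summation
  have sum : ∀ s : ℕ, len k (Ideal.span {f} ⊔ M ^ s * (J ^ n * I₀)) ≤
      (((s + 1).choose 2 : ℕ) : ℕ∞) * A + ((s * (n + 1) : ℕ) : ℕ∞) * B +
        len k (Ideal.span {f} ⊔ J ^ n * I₀) := by
    intro s
    induction s with
    | zero => simp
    | succ s ih =>
      refine (step s).trans ?_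
      rw [choose_step]
      calc ((s + 1 : ℕ) : ℕ∞) * A + ((n + 1 : ℕ) : ℕ∞) * B +
            len k (Ideal.span {f} ⊔ M ^ s * (J ^ n * I₀))
          ≤ ((s + 1 : ℕ) : ℕ∞) * A + ((n + 1 : ℕ) : ℕ∞) * B +
            ((((s + 1).choose 2 : ℕ) : ℕ∞) * A + ((s * (n + 1) : ℕ) : ℕ∞) * B +
              len k (Ideal.span {f} ⊔ J ^ n * I₀)) := by gcongr
        _ = _ := by push_cast; ring
  have h0 : len k (Ideal.span {f} ⊔ J ^ n * I₀) ≤
      ((n + 2).choose 2 : ℕ) * len k (Ideal.span {f, b₁, b₂}) := by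
    have h1 := hP k R f b₁ b₂ (n + 1)
    refine le_trans (len_mono ?_) h1
    refine sup_le le_sup_left ?_
    refine le_trans ?_ le_sup_right
    have h2 : Ideal.span {b₁, b₂} ≤ J := by
      rw [Ideal.span_le]
      intro x hx
      simp only [Set.mem_insert_iff, Set.mem_singleton_iff] at hx
      rcases hx with rfl | rfl
      · exact hb₁
      · exact hb₂
    calc Ideal.span {b₁, b₂} ^ (n + 1) ≤ J ^ (n + 1) := Ideal.pow_right_mono h2 _
      _ = J ^ n * J := pow_succ _ _
      _ ≤ J ^ n * I₀ := Ideal.mul_mono_right hJ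
  have h4 := sum n
  rw [mul_pow, mul_assoc]
  refine h4.trans ?_
  rw [two_choose]
  calc (((n + 1).choose 2 : ℕ) : ℕ∞) * A + ((2 * (n + 1).choose 2 : ℕ) : ℕ∞) * B +
        len k (Ideal.span {f} ⊔ J ^ n * I₀)
      ≤ (((n + 1).choose 2 : ℕ) : ℕ∞) * A + ((2 * (n + 1).choose 2 : ℕ) : ℕ∞) * B +
        ((n + 2).choose 2 : ℕ) * len k (Ideal.span {f, b₁, b₂}) := by gcongr
    _ = _ := by push_cast; ring

end Pool.Agent.DU5.AB.H20
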